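import Pool.Agent.H56.Gel2

set_option autoImplicit false

namespace Pool.Agent.Results.MP_3ada3c_an.NonSep
open WeakDual

/-- The spectrum in `A` is countably generated. -/
def CountablyGenerated (A : Type) [NormedCommRing A] [NormedAlgebra ℂ A] : Prop :=
  ∃ S : Set (characterSpace ℂ A), S.Countable ∧
    ∀ x : A, spectrum ℂ x = closure ((fun φ : characterSpace ℂ A => φ x) '' S)

theorem result : ∃ (A : Type) (_ : NormedCommRing A) (_ : NormedAlgebra ℂ A),
    CompleteSpace A ∧ ‖(1 : A)‖ = 1 ∧ CountablyGenerated A ∧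
      ¬ TopologicalSpace.SeparableSpace (characterSpace ℂ A) :=
  ⟨Pool.Agent.H56.Gel.A, inferInstance, inferInstance, inferInstance,
    Pool.Agent.H56.Gel.norm_one', ⟨_, Set.countable_range _, Pool.Agent.H56.Gel.gen⟩,
    Pool.Agent.H56.Gel.nonsep⟩

end Pool.Agent.Results.MP_3ada3c_an.NonSep
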